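import Mathlib

set_option autoImplicit false

namespace Pool.Agent.Results.MP_e8cc41_co.CliqueLimit

/-- The graph `Γ(Q_b, V)` on the vertex set `K`: distinct `x`, `y` are adjacent iff
`Q_b(x, y) = x² + b x y + y²` lies in the `F`-subspace `V` of `K`. -/
def quadGraph {F K : Type} [Field F] [Field K] [Algebra F K] (b : K) (V : Submodule F K) :
    SimpleGraph K where
  Adj x y := x ≠ y ∧ x ^ 2 + b * x * y + y ^ 2 ∈ V
  symm := ⟨by
    rintro x y ⟨hne, h⟩
    refine ⟨hne.symm, ?_⟩
    have e : y ^ 2 + b * y * x + x ^ 2 = x ^ 2 + b * x * y + y ^ 2 := by ring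
    rwa [e]⟩
  loopless := ⟨fun x h => h.1 rfl⟩

/-- `V` is an admissible `F`-subspace of `K`: it is a proper nonzero subspace, has fewer than
`(#F)^([K:F]/2)` elements, and no multiple `α V` (with `α ∈ K`) is a subfield of `K`. -/
def Admissible {F K : Type} [Field F] [Field K] [Algebra F K] (V : Submodule F K) : Prop :=
  V ≠ ⊤ ∧ V ≠ ⊥ ∧
    (Nat.card V : ℝ) < (Nat.card F : ℝ) ^ ((Module.finrank F K : ℝ) / 2) ∧
    ∀ (α : K) (L : Subfield K), (L : Set K) ≠ {x | ∃ v ∈ V, x = α * v}

section aux

variable {F K : Type} [Field F] [Finite F] [Field K] [Finite K] [Algebra F K]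

/-- A subspace of `U` with more than `#U / q` elements is all of `U`. -/
lemma eq_of_card_lt (W U : Submodule F K) (hWU : W ≤ U)
    (h : Nat.card U < Nat.card F * Nat.card W) : W = U := by
  by_contra hne
  have hlt : W < U := lt_of_le_of_ne hWU hne
  have h1 : Module.finrank F W < Module.finrank F U := Submodule.finrank_lt_finrank_of_lt hlt
  have h2 : Nat.card U = Nat.card F ^ Module.finrank F U := Module.natCard_eq_pow_finrank
  have h3 : Nat.card W = Nat.card F ^ Module.finrank F W := Module.natCard_eq_pow_finrank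
  have hq : 0 < Nat.card F := Nat.card_pos
  rw [h2, h3, ← pow_succ'] at h
  exact absurd h (not_lt.mpr (Nat.pow_le_pow_right hq h1))

/-- The preimage of `V` under multiplication by `c`. -/
def pre (c : K) (V : Submodule F K) : Submodule F K where
  carrier := {u | c * u ∈ V}
  add_mem' := by
    intro a b ha hb
    have : c * (a + b) = c * a + c * b := by ring
    simpa [this] using V.add_mem ha hb
  zero_mem' := by simp
  smul_mem' := by
    intro r x hx
    have : c * (r • x) = r • (c * x) := by simp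
    simpa [this] using V.smul_mem r hx

omit [Finite F] [Finite K] in
lemma mem_pre (c : K) (V : Submodule F K) (u : K) : u ∈ pre c V ↔ c * u ∈ V := Iff.rfl

omit [Finite F] [Finite K] in
lemma card_pre (c : K) (hc : c ≠ 0) (V : Submodule F K) : Nat.card (pre c V) = Nat.card V := by
  refine Nat.card_congr ⟨fun u => ⟨c * u.1, u.2⟩, fun v => ⟨c⁻¹ * v.1, ?_⟩, ?_, ?_⟩
  · rw [mem_pre, ← mul_assoc, mul_inv_cancel₀ hc, one_mul]; exact v.2
  · intro u; ext; simp [hc]
  · intro v; ext; simp [hc]

omit [Finite F] in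
/-- A set `T` whose translate by `-t` is inside the subspace `W` has at most `#W` elements. -/
lemma card_le_of_sub_mem (T : Finset K) (W : Submodule F K) (t : K)
    (h : ∀ y ∈ T, y - t ∈ W) : T.card ≤ Nat.card W := by
  classical
  have : Nat.card T ≤ Nat.card W := by
    refine Nat.card_le_card_of_injective (fun y : T => (⟨y.1 - t, h y.1 y.2⟩ : W)) ?_
    intro y z hyz
    have := congrArg Subtype.val hyz
    simp only at this
    exact Subtype.ext (sub_left_inj.mp this)
  simpa using this

/-- The key structural statement: a large clique forces `V` to be a multiple of a subfield. -/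
theorem structure_of_large_clique (V : Submodule F K) (b : K) (hb : b ≠ 0) (S : Finset K)
    (hS : (quadGraph b V).IsClique (S : Set K))
    (hcard : Nat.card V < Nat.card F * (S.card - 4)) :
    ∃ (α : K) (L : Subfield K), (L : Set K) = {x | ∃ v ∈ V, x = α * v} := by
  classical
  have hVpos : 0 < Nat.card V := Nat.card_pos
  have hS4 : 4 < S.card := by
    by_contra hcon
    have : S.card - 4 = 0 := by omega
    rw [this] at hcard
    omega
  -- membership
  have hQ : ∀ x ∈ S, ∀ y ∈ S, x ≠ y → x ^ 2 + b * x * y + y ^ 2 ∈ V := by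
    intro x hx y hy hxy
    exact (hS (Finset.mem_coe.mpr hx) (Finset.mem_coe.mpr hy) hxy).2
  -- the four point identity
  have h4 : ∀ x ∈ S, ∀ z ∈ S, ∀ y ∈ S, ∀ w ∈ S, x ≠ y → x ≠ w → z ≠ y → z ≠ w →
      b * (x - z) * (y - w) ∈ V := by
    intro x hx z hz y hy w hw hxy hxw hzy hzw
    have e : b * (x - z) * (y - w) =
        (x ^ 2 + b * x * y + y ^ 2) - (z ^ 2 + b * z * y + y ^ 2)
          - ((x ^ 2 + b * x * w + w ^ 2) - (z ^ 2 + b * z * w + w ^ 2)) := by ring
    rw [e]
    exact V.sub_mem (V.sub_mem (hQ x hx y hy hxy) (hQ z hz y hy hzy))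
      (V.sub_mem (hQ x hx w hw hxw) (hQ z hz w hw hzw))
  -- all the spaces `pre (b (x - z)) V` coincide
  have hsame : ∀ x ∈ S, ∀ z ∈ S, x ≠ z → ∀ x' ∈ S, ∀ z' ∈ S, x' ≠ z' →
      pre (b * (x - z)) V ≤ pre (b * (x' - z')) V := by
    intro x hx z hz hxz x' hx' z' hz' hxz'
    set T : Finset K := (((S.erase x).erase z).erase x').erase z' with hT
    have hTcard : S.card - 4 ≤ T.card := by
      have e1 := Finset.pred_card_le_card_erase (s := S) (a := x)
      have e2 := Finset.pred_card_le_card_erase (s := S.erase x) (a := z)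
      have e3 := Finset.pred_card_le_card_erase (s := (S.erase x).erase z) (a := x')
      have e4 := Finset.pred_card_le_card_erase (s := ((S.erase x).erase z).erase x') (a := z')
      rw [hT]
      omega
    have hTmem : ∀ y ∈ T, y ∈ S ∧ y ≠ x ∧ y ≠ z ∧ y ≠ x' ∧ y ≠ z' := by
      intro y hy
      simp only [hT, Finset.mem_erase] at hy
      tauto
    have hTne : T.Nonempty := by
      rw [← Finset.card_pos]; omega
    obtain ⟨t, ht⟩ := hTne
    have hc : b * (x - z) ≠ 0 := mul_ne_zero hb (sub_ne_zero.mpr hxz)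
    have hle : T.card ≤ Nat.card (pre (b * (x - z)) V ⊓ pre (b * (x' - z')) V : Submodule F K) := by
      refine card_le_of_sub_mem T _ t ?_
      intro y hy
      obtain ⟨hyS, hyx, hyz, hyx', hyz'⟩ := hTmem y hy
      obtain ⟨htS, htx, htz, htx', htz'⟩ := hTmem t ht
      refine Submodule.mem_inf.mpr ⟨?_, ?_⟩
      · rw [mem_pre]
        exact h4 x hx z hz y hyS t htS hyx.symm htx.symm hyz.symm htz.symm
      · rw [mem_pre]
        exact h4 x' hx' z' hz' y hyS t htS hyx'.symm htx'.symm hyz'.symm htz'.symm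
    have heq : (pre (b * (x - z)) V ⊓ pre (b * (x' - z')) V : Submodule F K)
        = pre (b * (x - z)) V := by
      refine eq_of_card_lt _ _ inf_le_left ?_
      rw [card_pre _ hc]
      calc Nat.card V < Nat.card F * (S.card - 4) := hcard
        _ ≤ _ := Nat.mul_le_mul_left _ (hTcard.trans hle)
    exact inf_eq_left.mp heq
  -- fix a base pair
  obtain ⟨x₀, hx₀, z₀, hz₀, hxz₀⟩ : ∃ x ∈ S, ∃ z ∈ S, x ≠ z := by
    have : 1 < S.card := by omega
    obtain ⟨x, hx, z, hz, h⟩ := Finset.one_lt_card.mp this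
    exact ⟨x, hx, z, hz, h⟩
  set U : Submodule F K := pre (b * (x₀ - z₀)) V with hU
  have hc₀ : b * (x₀ - z₀) ≠ 0 := mul_ne_zero hb (sub_ne_zero.mpr hxz₀)
  have hUcard : Nat.card U = Nat.card V := card_pre _ hc₀ V
  -- differences of `S` lie in `U`
  have hdiff : ∀ y ∈ S, y - x₀ ∈ U := by
    intro y hy
    by_cases hyx : y = x₀
    · rw [hyx, sub_self]; exact U.zero_mem
    -- choose a pair avoiding `y` and `x₀`
    have h1 : 1 < ((S.erase y).erase x₀).card := by
      have e1 := Finset.pred_card_le_card_erase (s := S) (a := y)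
      have e2 := Finset.pred_card_le_card_erase (s := S.erase y) (a := x₀)
      omega
    obtain ⟨p, hp, r, hr, hpr⟩ := Finset.one_lt_card.mp h1
    simp only [Finset.mem_erase] at hp hr
    have hmem : y - x₀ ∈ pre (b * (p - r)) V := by
      rw [mem_pre]
      exact h4 p hp.2.2 r hr.2.2 y hy x₀ hx₀ hp.2.1 hp.1 hr.2.1 hr.1
    exact hsame p hp.2.2 r hr.2.2 hpr x₀ hx₀ z₀ hz₀ hxz₀ hmem
  -- products of two elements of `U`, times `b`, are in `V`
  let W : Submodule F K :=
    { carrier := {u | ∀ u' ∈ U, b * u * u' ∈ V}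
      add_mem' := by
        intro a c ha hc u' hu'
        have e : b * (a + c) * u' = b * a * u' + b * c * u' := by ring
        rw [e]; exact V.add_mem (ha u' hu') (hc u' hu')
      zero_mem' := by
        intro u' _
        simp
      smul_mem' := by
        intro r a ha u' hu'
        have e : b * (r • a) * u' = r • (b * a * u') := by
          simp
        rw [e]; exact V.smul_mem r (ha u' hu') }
  have hWmem : ∀ u, u ∈ W ↔ ∀ u' ∈ U, b * u * u' ∈ V := fun u => Iff.rfl
  have hSW : ∀ y ∈ S, y - x₀ ∈ W := by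
    intro y hy
    by_cases hyx : y = x₀
    · rw [hyx, sub_self]; exact W.zero_mem
    rw [hWmem]
    intro u' hu'
    have := hsame x₀ hx₀ z₀ hz₀ hxz₀ y hy x₀ hx₀ hyx hu'
    rwa [mem_pre] at this
  have hWU : (W ⊓ U : Submodule F K) = U := by
    refine eq_of_card_lt _ _ inf_le_right ?_
    rw [hUcard]
    have hle : S.card ≤ Nat.card (W ⊓ U : Submodule F K) :=
      card_le_of_sub_mem S _ x₀ (fun y hy => Submodule.mem_inf.mpr ⟨hSW y hy, hdiff y hy⟩)
    calc Nat.card V < Nat.card F * (S.card - 4) := hcard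
      _ ≤ _ := Nat.mul_le_mul_left _ ((Nat.sub_le _ _).trans hle)
  have hprod : ∀ u ∈ U, ∀ u' ∈ U, b * u * u' ∈ V := by
    intro u hu
    have : u ∈ (W ⊓ U : Submodule F K) := by rw [hWU]; exact hu
    exact (hWmem u).mp (Submodule.mem_inf.mp this).1
  -- a nonzero element of `U`
  obtain ⟨u₀, hu₀, hu₀ne⟩ : ∃ u ∈ U, u ≠ 0 := by
    refine ⟨z₀ - x₀, hdiff z₀ hz₀, sub_ne_zero.mpr hxz₀.symm⟩
  -- surjectivity of `u ↦ b u₀ u` from `U` onto `V`
  have hsurj : ∀ v ∈ V, ∃ u ∈ U, b * u₀ * u = v := by
    have hinj : Function.Injective (fun u : U => (⟨b * u₀ * u.1, hprod u₀ hu₀ u.1 u.2⟩ : V)) := by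
      intro u u' h
      have := congrArg Subtype.val h
      simp only at this
      exact Subtype.ext (mul_left_cancel₀ (mul_ne_zero hb hu₀ne) this)
    have hbij := (Nat.bijective_iff_injective_and_card _).mpr ⟨hinj, hUcard⟩
    intro v hv
    obtain ⟨u, hu⟩ := hbij.2 ⟨v, hv⟩
    exact ⟨u.1, u.2, congrArg Subtype.val hu⟩
  -- the multiplier set
  have hmul : ∀ k : K, k * u₀ ∈ U → ∀ u ∈ U, k * u ∈ U := by
    intro k hk u hu
    have h1 : b * (k * u₀) * u ∈ V := hprod _ hk _ hu
    obtain ⟨u', hu', he⟩ := hsurj _ h1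
    have : u' = k * u := by
      have e : b * u₀ * u' = b * u₀ * (k * u) := by rw [he]; ring
      exact mul_left_cancel₀ (mul_ne_zero hb hu₀ne) e
    rwa [← this]
  let L : Subfield K :=
    { carrier := {k | k * u₀ ∈ U}
      mul_mem' := by
        intro k k' hk hk'
        have := hmul k hk (k' * u₀) hk'
        simpa [mul_assoc] using this
      one_mem' := by simpa using hu₀
      add_mem' := by
        intro k k' hk hk'
        have : (k + k') * u₀ = k * u₀ + k' * u₀ := by ring
        simpa [this] using U.add_mem hk hk'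
      zero_mem' := by simp
      neg_mem' := by
        intro k hk
        have : (-k) * u₀ = -(k * u₀) := by ring
        simpa [this] using U.neg_mem hk
      inv_mem' := by
        intro k hk
        change k⁻¹ * u₀ ∈ U
        change k * u₀ ∈ U at hk
        by_cases hk0 : k = 0
        · simp [hk0]
        -- `u ↦ k u` is injective on the finite set `U`, hence surjective
        have hinj : Function.Injective (fun u : U => (⟨k * u.1, hmul k hk u.1 u.2⟩ : U)) := by
          intro u u' h
          have := congrArg Subtype.val h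
          simp only at this
          exact Subtype.ext (mul_left_cancel₀ hk0 this)
        have hs := Finite.surjective_of_injective hinj
        obtain ⟨u, hu⟩ := hs ⟨u₀, hu₀⟩
        have hu' : k * u.1 = u₀ := congrArg Subtype.val hu
        have : k⁻¹ * u₀ = u.1 := by
          rw [← hu', ← mul_assoc, inv_mul_cancel₀ hk0, one_mul]
        rw [this]; exact u.2 }
  have hbu : b * u₀ * u₀ ≠ 0 := mul_ne_zero (mul_ne_zero hb hu₀ne) hu₀ne
  refine ⟨(b * u₀ * u₀)⁻¹, L, ?_⟩
  ext k
  constructor
  · intro hk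
    have hk' : k * u₀ ∈ U := hk
    refine ⟨b * u₀ * (k * u₀), hprod u₀ hu₀ _ hk', ?_⟩
    field_simp
  · rintro ⟨v, hv, rfl⟩
    obtain ⟨u, hu, rfl⟩ := hsurj v hv
    change (b * u₀ * u₀)⁻¹ * (b * u₀ * u) * u₀ ∈ U
    have : (b * u₀ * u₀)⁻¹ * (b * u₀ * u) * u₀ = u := by
      field_simp
    rw [this]; exact hu

end aux

/-- **Q1, affirmative answer.** For each fixed `n ≥ 2` and `ε > 0` there is `q₀` such that for
all odd prime powers `q = #F ≥ q₀`, the field `K` of degree `n` over `F`, every admissible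
subspace `V` and every `b ≠ 0`, the clique number of `Γ(Q_b, V)` is at most `ε · #V`. -/
theorem result (n : ℕ) (hn : 2 ≤ n) (ε : ℝ) (hε : 0 < ε) :
    ∃ q₀ : ℕ, ∀ (F K : Type) [Field F] [Finite F] [Field K] [Algebra F K],
      Odd (Nat.card F) → q₀ ≤ Nat.card F → Module.finrank F K = n →
      ∀ V : Submodule F K, Admissible V → ∀ b : K, b ≠ 0 →
        ((quadGraph b V).cliqueNum : ℝ) / (Nat.card V : ℝ) ≤ ε := by
  obtain ⟨q₀, hq₀⟩ := exists_nat_gt (5 / ε)
  refine ⟨q₀, ?_⟩
  intro F K _ _ _ _ _ hq hfin V hV b hb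
  have hfd : Module.Finite F K := by
    apply Module.finite_of_finrank_pos
    omega
  have : Finite K := Module.finite_of_finite F
  obtain ⟨-, hbot, -, hsub⟩ := hV
  have hqpos : 0 < Nat.card F := Nat.card_pos
  obtain ⟨S, hS⟩ := (quadGraph b V).exists_isNClique_cliqueNum
  have hclique := hS.isClique
  have hScard := hS.card_eq
  -- the upper bound
  have hbound : Nat.card F * (S.card - 4) ≤ Nat.card V := by
    by_contra hcon
    push Not at hcon
    obtain ⟨α, L, hL⟩ := structure_of_large_clique V b hb S hclique hcon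
    exact hsub α L hL
  -- dimension at least two
  have hcardV : Nat.card V = Nat.card F ^ Module.finrank F V := Module.natCard_eq_pow_finrank
  have hdim : 2 ≤ Module.finrank F V := by
    have h0 : Module.finrank F V ≠ 0 := by
      intro h
      exact hbot (Submodule.finrank_eq_zero.mp h)
    have h1 : Module.finrank F V ≠ 1 := by
      intro h
      -- then `V = F · v` and `v⁻¹ V` is the image of `F`
      obtain ⟨v, hv, hspan⟩ := finrank_eq_one_iff'.mp h
      have hvne : (v : K) ≠ 0 := fun h => hv (Subtype.ext h)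
      refine hsub (v : K)⁻¹ (algebraMap F K).fieldRange ?_
      ext x
      constructor
      · rintro ⟨c, rfl⟩
        refine ⟨c • (v : K), V.smul_mem c v.2, ?_⟩
        rw [Algebra.smul_def]
        field_simp
      · rintro ⟨w, hw, rfl⟩
        obtain ⟨c, hc⟩ := hspan ⟨w, hw⟩
        have hc' : c • (v : K) = w := congrArg Subtype.val hc
        refine ⟨c, ?_⟩
        rw [← hc', Algebra.smul_def]
        field_simp
    omega
  have hV2 : Nat.card F ^ 2 ≤ Nat.card V := by
    rw [hcardV]
    exact Nat.pow_le_pow_right hqpos hdim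
  have hVpos : (0 : ℝ) < Nat.card V := by
    exact_mod_cast (lt_of_lt_of_le (pow_pos hqpos 2) hV2)
  have hqR : (0 : ℝ) < Nat.card F := by exact_mod_cast hqpos
  rw [div_le_iff₀ hVpos]
  -- `q * ω ≤ #V + 4 q ≤ 5 #V`
  have h5 : (Nat.card F : ℝ) * ((quadGraph b V).cliqueNum : ℝ) ≤ 5 * Nat.card V := by
    have hnat : Nat.card F * (quadGraph b V).cliqueNum ≤ 5 * Nat.card V := by
      rw [← hScard]
      have h1 : Nat.card F * S.card ≤ Nat.card F * (S.card - 4) + Nat.card F * 4 := by
        rw [← Nat.mul_add]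
        exact Nat.mul_le_mul_left _ (by omega)
      have h2 : Nat.card F * 4 ≤ 4 * Nat.card V := by
        have : Nat.card F ≤ Nat.card F ^ 2 := by nlinarith
        omega
      omega
    exact_mod_cast hnat
  have h6 : 5 / ε < (Nat.card F : ℝ) := lt_of_lt_of_le hq₀ (by exact_mod_cast hq)
  have h7 : 5 < ε * (Nat.card F : ℝ) := by
    rw [div_lt_iff₀ hε] at h6
    linarith
  have h8 : (0 : ℝ) ≤ ((quadGraph b V).cliqueNum : ℝ) := Nat.cast_nonneg _
  -- conclude
  by_contra hcon
  push Not at hcon
  have h9 : (Nat.card F : ℝ) * (ε * Nat.card V) <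
      (Nat.card F : ℝ) * ((quadGraph b V).cliqueNum : ℝ) :=
    mul_lt_mul_of_pos_left hcon hqR
  nlinarith

end Pool.Agent.Results.MP_e8cc41_co.CliqueLimit
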